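import Mathlib

/-!
Extension of a derivation of a domain to its fraction field.
-/

set_option autoImplicit false

namespace H563R2.Deriv

universe u v w

section
variable {K : Type w} [CommRing K] {P : Type u} [CommRing P] [IsDomain P] [Algebra K P]
  {F : Type v} [Field F] [Algebra P F] [IsFractionRing P F] (D : Derivation K P P)

/-- pairs as elements of the trivial square-zero extension -/
def pr (a b : F) : TrivSqZeroExt F F := (a, b)

@[simp] theorem pr_fst (a b : F) : (pr a b).fst = a := rfl
@[simp] theorem pr_snd (a b : F) : (pr a b).snd = b := rfl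

/-- ring hom `p ↦ p + ε D p`. -/
noncomputable def phi : P →+* TrivSqZeroExt F F where
  toFun p := pr (algebraMap P F p) (algebraMap P F (D p))
  map_one' := by
    ext <;> simp
  map_mul' p q := by
    ext
    · simp
    · rw [TrivSqZeroExt.snd_mul, pr_snd, pr_snd, pr_snd, pr_fst, pr_fst, Derivation.leibniz]
      simp only [smul_eq_mul, map_add, map_mul, MulOpposite.smul_eq_mul_unop,
        MulOpposite.unop_op]
      ring
  map_zero' := by ext <;> simp
  map_add' p q := by
    ext <;> simp

theorem phi_isUnit (p : nonZeroDivisors P) :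
    IsUnit (phi (F := F) D p) := by
  rw [TrivSqZeroExt.isUnit_iff_isUnit_fst]
  have hp : (p : P) ≠ 0 := nonZeroDivisors.ne_zero p.2
  simp only [phi, RingHom.coe_mk, MonoidHom.coe_mk, OneHom.coe_mk, pr_fst, isUnit_iff_ne_zero]
  intro h
  exact hp ((IsFractionRing.injective P F) (by rw [h, map_zero]))

/-- extension to the fraction field -/
noncomputable def Phi : F →+* TrivSqZeroExt F F :=
  IsLocalization.lift (M := nonZeroDivisors P) (g := phi (F := F) D) (phi_isUnit D)

theorem Phi_algebraMap (p : P) :
    Phi (F := F) D (algebraMap P F p) = phi D p := by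
  simp [Phi]

theorem Phi_fst (x : F) : (Phi (F := F) D x).fst = x := by
  have h : ((TrivSqZeroExt.fstHom F F F).toRingHom.comp (Phi (F := F) D)) = RingHom.id _ := by
    apply IsLocalization.ringHom_ext (nonZeroDivisors P)
    ext p
    simp [Phi, phi]
  exact congrArg (fun f : F →+* F => f x) h

/-- The extension of `D` to the fraction field. -/
noncomputable def dd (x : F) : F := (Phi (F := F) D x).snd

theorem dd_add (x y : F) : dd D (x + y) = dd D x + dd D y := by
  simp [dd]

theorem dd_sub (x y : F) : dd D (x - y) = dd D x - dd D y := by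
  simp [dd]

theorem dd_zero : dd D (0 : F) = 0 := by
  simp [dd]

theorem dd_mul (x y : F) : dd D (x * y) = x * dd D y + y * dd D x := by
  simp [dd, Phi_fst, mul_comm]

theorem dd_sum {ι : Type*} (s : Finset ι) (f : ι → F) :
    dd D (∑ j ∈ s, f j) = ∑ j ∈ s, dd D (f j) := by
  simp [dd, TrivSqZeroExt.snd_sum]

theorem dd_algebraMap (p : P) :
    dd D (algebraMap P F p) = algebraMap P F (D p) := by
  simp [dd, Phi_algebraMap, phi]

theorem dd_div (x y : F) (hy : y ≠ 0) :
    dd D (x / y) = (y * dd D x - x * dd D y) / y ^ 2 := by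
  have h : dd D x = (x / y) * dd D y + y * dd D (x / y) := by
    rw [← dd_mul, div_mul_cancel₀ x hy]
  rw [h]
  field_simp
  ring

end

end H563R2.Deriv
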